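import Mathlib

/-!
# The asymmetric homomorphism threshold for consecutive odd cycles is positive

For every `t ≥ 1` there is `δ > 0` such that for all `M` there is a graph of odd girth at least
`2t + 5` and minimum degree at least `δ n` without homomorphism to a graph of odd girth at least
`2t + 3` with at most `M` vertices.

Construction: let `H` be the shift graph on increasing `(2t+4)`-tuples of numbers less than `N`,
whose chromatic number is large.  Take `H × C_{2t+1}` and add, for every vertex `i` of the cycle,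
sets `Y i` and `Z i`, completely joined to each other, where `Y i` consists of copies of all subsets
`R` of `{0, …, N-1}`, and `(a, i)` is joined to `R` in `Y i` if the numbers `a 0, a 1, a 2, …` are
alternatingly outside and inside `R`.
-/

set_option linter.unusedSectionVars false

namespace Pool.Agent.Results.MP_0fa314_co.NoThreshold

open Finset

/-- `G` contains no odd cycle of length at most `L`. -/
def OddCycleFree {V : Type*} (G : SimpleGraph V) (L : ℕ) : Prop :=
  ∀ (v : V) (p : G.Walk v v), p.IsCycle → Odd p.length → L < p.length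

/-! ## Odd closed walks contain odd cycles -/

theorem exists_odd_cycle {V : Type*} {G : SimpleGraph V} : ∀ (n : ℕ) (v : V) (p : G.Walk v v),
    p.length = n → Odd n →
    ∃ (w : V) (q : G.Walk w w), q.IsCycle ∧ Odd q.length ∧ q.length ≤ n := by
  intro n
  induction n using Nat.strong_induction_on with
  | _ n ih =>
    intro v p hp hn
    by_cases hinj : ∃ i j, i < j ∧ j ≤ n ∧ j - i < n ∧ p.getVert i = p.getVert j
    · obtain ⟨i, j, hij, hjn, hlt, heq⟩ := hinj
      -- two closed walks
      let p1 : G.Walk (p.getVert i) (p.getVert i) :=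
        ((p.drop i).take (j - i)).copy rfl (by
          rw [SimpleGraph.Walk.drop_getVert, heq]
          congr 1
          omega)
      have hp1 : p1.length = j - i := by
        simp only [p1, SimpleGraph.Walk.length_copy, SimpleGraph.Walk.take_length,
          SimpleGraph.Walk.drop_length]
        omega
      let p2 : G.Walk v v := (p.take i).append ((p.drop j).copy heq.symm rfl)
      have hp2 : p2.length = n - (j - i) := by
        simp only [p2, SimpleGraph.Walk.length_append, SimpleGraph.Walk.length_copy,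
          SimpleGraph.Walk.take_length, SimpleGraph.Walk.drop_length]
        omega
      rcases Nat.even_or_odd (j - i) with he | ho
      · have hodd : Odd (n - (j - i)) := Nat.Odd.sub_even (by omega) hn he
        obtain ⟨w, q, h1, h2, h3⟩ := ih (n - (j - i)) (by omega) v p2 hp2 hodd
        exact ⟨w, q, h1, h2, by omega⟩
      · obtain ⟨w, q, h1, h2, h3⟩ := ih (j - i) hlt _ p1 hp1 ho
        exact ⟨w, q, h1, h2, by omega⟩
    · push Not at hinj
      refine ⟨v, p, ?_, by rw [hp]; exact hn, hp.le⟩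
      cases p with
      | nil =>
        simp only [SimpleGraph.Walk.length_nil] at hp
        subst hp
        exact absurd hn (by decide)
      | @cons _ w _ h q =>
        rw [SimpleGraph.Walk.length_cons] at hp
        have hq : q.IsPath := by
          rw [← SimpleGraph.Walk.IsPath.getVert_injOn_iff]
          intro i hi j hj hij
          simp only [Set.mem_ofPred_eq] at hi hj
          by_contra hne
          rcases Nat.lt_or_gt_of_ne hne with h1 | h1
          · apply hinj (i + 1) (j + 1) (by omega) (by omega) (by omega)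
            simpa using hij
          · apply hinj (j + 1) (i + 1) (by omega) (by omega) (by omega)
            simpa using hij.symm
        rw [SimpleGraph.Walk.cons_isCycle_iff]
        refine ⟨hq, ?_⟩
        intro hmem
        have h2 : v = q.snd := hq.eq_snd_of_mem_edges (by rwa [Sym2.eq_swap] at hmem)
        have h3 : q.length ≠ 1 := by
          intro h4
          rw [← hp, h4] at hn
          exact absurd hn (by decide)
        have h4 : q.length ≠ 0 := by
          intro h4
          have := SimpleGraph.Walk.eq_of_length_eq_zero h4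
          subst this
          exact h.ne rfl
        apply hinj 0 2 (by omega) (by omega) (by omega)
        simp only [SimpleGraph.Walk.getVert_zero]
        rw [show (SimpleGraph.Walk.cons h q).getVert 2 = q.getVert 1 from rfl]
        exact h2

/-! ## The shift graph -/

/-- Increasing `r`-tuples of numbers less than `N`. -/
abbrev Vert (r N : ℕ) := {a : Fin r → Fin N // StrictMono a}

/-- Drop the last entry. -/
def lo {r N : ℕ} (x : Vert (r + 1) N) : Vert r N :=
  ⟨fun i => x.1 i.castSucc, fun _ _ h => x.2 (Fin.castSucc_lt_castSucc_iff.mpr h)⟩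

/-- Drop the first entry. -/
def hi {r N : ℕ} (x : Vert (r + 1) N) : Vert r N :=
  ⟨fun i => x.1 i.succ, fun _ _ h => x.2 (Fin.succ_lt_succ_iff.mpr h)⟩

/-- The `1`-tuple with entry `i`. -/
def single {N : ℕ} (i : Fin N) : Vert (0 + 1) N :=
  ⟨fun _ => i, fun u v h => absurd h (by
    have := u.2
    have := v.2
    rw [Fin.lt_def]
    omega)⟩

/-- The `2`-tuple with entries `i < j`. -/
def pair {N : ℕ} (i j : Fin N) (h : i < j) : Vert (0 + 2) N :=
  ⟨![i, j], by
    intro u v huv
    fin_cases u <;> fin_cases v <;> first | exact absurd huv (by decide) | exact h⟩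

/-- In every colouring of the increasing `(r+1)`-tuples with finitely many colours, two consecutive
tuples have the same colour. -/
theorem exists_mono (r : ℕ) : ∀ (C : Type) [Finite C], ∃ N : ℕ, ∀ c : Vert (r + 1) N → C,
    ∃ x : Vert (r + 2) N, c (lo x) = c (hi x) := by
  induction r with
  | zero =>
    intro C _
    have := Fintype.ofFinite C
    refine ⟨Fintype.card C + 1, ?_⟩
    intro c
    obtain ⟨i, j, hne, hij⟩ := Fintype.exists_ne_map_eq_of_card_lt
      (fun i : Fin (Fintype.card C + 1) => c (single i)) (by simp)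
    wlog hlt : i < j generalizing i j with H
    · exact H j i hne.symm hij.symm (lt_of_le_of_ne (not_lt.mp hlt) hne.symm)
    refine ⟨pair i j hlt, ?_⟩
    have h1 : lo (pair i j hlt) = single i := by
      apply Subtype.ext
      funext u
      fin_cases u
      rfl
    have h2 : hi (pair i j hlt) = single j := by
      apply Subtype.ext
      funext u
      fin_cases u
      rfl
    rw [h1, h2]
    exact hij
  | succ r ih =>
    intro C _
    obtain ⟨N, hN⟩ := ih (Set C)
    refine ⟨N, ?_⟩
    intro c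
    obtain ⟨x, hx⟩ := hN (fun a => {γ | ∃ e : Vert (r + 2) N, lo e = a ∧ c e = γ})
    have h1 : c x ∈ {γ | ∃ e : Vert (r + 2) N, lo e = hi x ∧ c e = γ} := by
      rw [← hx]
      exact ⟨x, rfl, rfl⟩
    obtain ⟨e, he1, he2⟩ := h1
    have h0 : x.1 0 < e.1 0 := by
      have h2 : (lo e).1 0 = (hi x).1 0 := by rw [he1]
      have h3 : e.1 0 = x.1 1 := h2
      rw [h3]
      exact x.2 (by simp)
    let y : Fin (r + 3) → Fin N := Fin.cons (x.1 0) e.1
    have hy : StrictMono y := by
      rw [Fin.strictMono_iff_lt_succ]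
      intro i
      refine Fin.cases ?_ (fun j => ?_) i
      · exact h0
      · exact e.2 (by simp [Fin.lt_def])
    refine ⟨⟨y, hy⟩, ?_⟩
    have h2 : hi (⟨y, hy⟩ : Vert (r + 3) N) = e := by
      apply Subtype.ext
      funext u
      rfl
    have h3 : lo (⟨y, hy⟩ : Vert (r + 3) N) = x := by
      apply Subtype.ext
      funext u
      refine Fin.cases ?_ (fun j => ?_) u
      · rfl
      · have h4 : (lo e).1 j = (hi x).1 j := by rw [he1]
        exact h4
    rw [h2, h3]
    exact he2.symm

/-- The entries of a tuple, as natural numbers. -/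
def ev {r N : ℕ} (a : Vert r N) (i : ℕ) : ℕ := if h : i < r then (a.1 ⟨i, h⟩ : ℕ) else 0

theorem ev_of_lt {r N : ℕ} (a : Vert r N) {i : ℕ} (h : i < r) : ev a i = (a.1 ⟨i, h⟩ : ℕ) := by
  rw [ev, dif_pos h]

theorem ev_inj {r N : ℕ} (a : Vert r N) {i j : ℕ} (hi : i < r) (hj : j < r)
    (h : ev a i = ev a j) : i = j := by
  rw [ev_of_lt a hi, ev_of_lt a hj] at h
  have := a.2.injective (Fin.ext h)
  simpa using this

/-- `b` arises from `a` by dropping the first entry and adding a new last entry. -/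
def Up {r N : ℕ} (a b : Vert r N) : Prop := ∀ i, i + 1 < r → ev b i = ev a (i + 1)

/-- Information kept along walks of length `n` in the shift graph. -/
def Track {r N : ℕ} (a b : Vert r N) (n : ℕ) : Prop :=
  ∃ p q, p ≤ n ∧ q ≤ n ∧ Even (p + q + n) ∧ ∀ s, s + n < r → ev b (p + s) = ev a (q + s)

theorem track_zero {r N : ℕ} (a : Vert r N) : Track a a 0 :=
  ⟨0, 0, le_refl _, le_refl _, by simp, fun _ _ => rfl⟩

theorem track_step {r N : ℕ} {a b c : Vert r N} {n : ℕ} (h : Track a b n)
    (hbc : Up b c ∨ Up c b) : Track a c (n + 1) := by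
  obtain ⟨p, q, hp, hq, hev, hs⟩ := h
  rcases hbc with hbc | hbc
  · rcases Nat.eq_zero_or_pos p with h0 | h0
    · subst h0
      refine ⟨0, q + 1, by omega, by omega, ?_, ?_⟩
      · rw [Nat.even_iff] at hev ⊢
        omega
      · intro s hsn
        rw [show (0 + s) = s by omega, hbc s (by omega)]
        have := hs (s + 1) (by omega)
        rw [show 0 + (s + 1) = s + 1 by omega] at this
        rw [this]
        congr 1
        omega
    · refine ⟨p - 1, q, by omega, by omega, ?_, ?_⟩
      · rw [Nat.even_iff] at hev ⊢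
        omega
      · intro s hsn
        rw [hbc (p - 1 + s) (by omega), show p - 1 + s + 1 = p + s by omega]
        exact hs s (by omega)
  · refine ⟨p + 1, q, by omega, by omega, ?_, ?_⟩
    · rw [Nat.even_iff] at hev ⊢
      omega
    · intro s hsn
      rw [show p + 1 + s = (p + s) + 1 by omega, ← hbc (p + s) (by omega)]
      exact hs s (by omega)

theorem track_odd {r N : ℕ} {a b : Vert r N} {n : ℕ} (h : Track a b n) (hn : n < r)
    (ho : Odd n) : ∃ p q, p < r ∧ q < r ∧ (p + q) % 2 = 1 ∧ ev b p = ev a q := by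
  obtain ⟨p, q, hp, hq, hev, hs⟩ := h
  refine ⟨p, q, by omega, by omega, ?_, ?_⟩
  · rw [Nat.even_iff] at hev
    rw [Nat.odd_iff] at ho
    omega
  · have := hs 0 (by omega)
    simpa using this

theorem not_track_self {r N : ℕ} {a : Vert r N} {n : ℕ} (h : Track a a n) (hn : n < r)
    (ho : Odd n) : False := by
  obtain ⟨p, q, hp, hq, hpq, he⟩ := track_odd h hn ho
  have := ev_inj a hp hq he
  omega

/-- `R` (as a subset of `{0, …, N-1}`) misses `a 0`, contains `a 1`, misses `a 2`, … -/
def Alt {r N : ℕ} (R : Fin N → Bool) (a : Vert r N) : Prop :=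
  ∀ i : Fin r, R (a.1 i) = decide ((i : ℕ) % 2 = 1)

theorem not_alt_alt {r N : ℕ} {a b : Vert r N} {n : ℕ} (h : Track a b n) (hn : n < r)
    (ho : Odd n) (R : Fin N → Bool) (ha : Alt R a) (hb : Alt R b) : False := by
  obtain ⟨p, q, hp, hq, hpq, he⟩ := track_odd h hn ho
  rw [ev_of_lt b hp, ev_of_lt a hq] at he
  have h1 := hb ⟨p, hp⟩
  have h2 := ha ⟨q, hq⟩
  rw [Fin.ext he, h2] at h1
  simp only [decide_eq_decide] at h1
  omega

open Classical in
theorem card_alt {r N : ℕ} (a : Vert r N) :
    2 ^ N ≤ 2 ^ r * Fintype.card {R : Fin N → Bool // Alt R a} := by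
  let f : (Fin N → Bool) → (Fin r → Bool) × {R : Fin N → Bool // Alt R a} := fun R =>
    (fun i => R (a.1 i),
      ⟨Function.extend a.1 (fun i => decide ((i : ℕ) % 2 = 1)) R, fun i => by
        rw [a.2.injective.extend_apply]⟩)
  have hf : Function.Injective f := by
    intro R S hRS
    simp only [f, Prod.mk.injEq] at hRS
    obtain ⟨h1, h2⟩ := hRS
    funext x
    by_cases hx : ∃ i, a.1 i = x
    · obtain ⟨i, rfl⟩ := hx
      exact congrFun h1 i
    · have := congrFun (congrArg Subtype.val h2) x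
      simp only at this
      rwa [Function.extend_apply' _ _ _ hx, Function.extend_apply' _ _ _ hx] at this
  have := Fintype.card_le_of_injective f hf
  simpa [Fintype.card_prod] using this

/-! ## The graph -/

/-- The vertex set: `X (a, i)`, `Y (R, s, i)` and `Z (R, s, i)`. -/
abbrev VG (r N m k : ℕ) :=
  (Vert r N × ZMod k) ⊕ (((Fin N → Bool) × Fin m × ZMod k) ⊕ ((Fin N → Bool) × Fin m × ZMod k))

variable {r N m k : ℕ}

/-- The vertices of the first kind. -/
def vX (a : Vert r N) (i : ZMod k) : VG r N m k := Sum.inl (a, i)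

/-- The vertices of the second kind. -/
def vY (R : Fin N → Bool) (s : Fin m) (i : ZMod k) : VG r N m k := Sum.inr (Sum.inl (R, s, i))

/-- The vertices of the third kind. -/
def vZ (R : Fin N → Bool) (s : Fin m) (i : ZMod k) : VG r N m k := Sum.inr (Sum.inr (R, s, i))

/-- The adjacency relation. -/
def rel (r N m k : ℕ) : VG r N m k → VG r N m k → Prop
  | Sum.inl (a, i), Sum.inl (b, j) => (Up a b ∨ Up b a) ∧ (j = i + 1 ∨ i = j + 1)
  | Sum.inl (a, i), Sum.inr (Sum.inl (R, _, j)) => i = j ∧ Alt R a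
  | Sum.inr (Sum.inl (R, _, j)), Sum.inl (a, i) => i = j ∧ Alt R a
  | Sum.inr (Sum.inl (_, _, i)), Sum.inr (Sum.inr (_, _, j)) => i = j
  | Sum.inr (Sum.inr (_, _, j)), Sum.inr (Sum.inl (_, _, i)) => i = j
  | _, _ => False

theorem rel_symm (r N m k : ℕ) (u v : VG r N m k) (h : rel r N m k u v) : rel r N m k v u := by
  rcases u with ⟨a, i⟩ | ⟨R, s, i⟩ | ⟨R, s, i⟩ <;> rcases v with ⟨b, j⟩ | ⟨S, s', j⟩ | ⟨S, s', j⟩ <;>
    simp only [rel] at h ⊢
  · exact ⟨h.1.symm, h.2.symm⟩
  · exact h
  · exact h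
  · exact h
  · exact h

theorem rel_irrefl (r N m k : ℕ) (hr : 1 < r) (u : VG r N m k) : ¬ rel r N m k u u := by
  rcases u with ⟨a, i⟩ | ⟨R, s, i⟩ | ⟨R, s, i⟩ <;> simp only [rel, not_false_eq_true]
  rintro ⟨h | h, -⟩ <;>
  · have h1 := h 0 (by omega)
    have := ev_inj a (by omega) (by omega) h1
    omega

/-- The graph. -/
def GG (r N m k : ℕ) (hr : 1 < r) : SimpleGraph (VG r N m k) where
  Adj := rel r N m k
  symm := ⟨fun u v h => rel_symm r N m k u v h⟩
  loopless := ⟨fun u h => rel_irrefl r N m k hr u h⟩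

/-- The index of a vertex. -/
def idx : VG r N m k → ZMod k
  | Sum.inl (_, i) => i
  | Sum.inr (Sum.inl (_, _, i)) => i
  | Sum.inr (Sum.inr (_, _, i)) => i

/-- The state of a walk from `u` to `vY R₀ s₀ i₀` with `x` edges between vertices of the first kind
and `e` other edges. -/
def St (R₀ : Fin N → Bool) (x e : ℕ) : VG r N m k → Prop
  | Sum.inl (b, _) => e % 2 = 1 ∧ (e = 1 → ∃ c, Alt R₀ c ∧ Track c b x)
  | Sum.inr (Sum.inl (R, _, _)) => e % 2 = 0 ∧ (e = 0 → x = 0 ∧ R = R₀) ∧
      (e = 2 → x = 0 ∨ ∃ c b : Vert r N, Alt R₀ c ∧ Alt R b ∧ Track c b x)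
  | Sum.inr (Sum.inr _) => e % 2 = 1 ∧ (e = 1 → x = 0)

theorem walk_state (hr : 1 < r) (R₀ : Fin N → Bool) (s₀ : Fin m) (i₀ : ZMod k)
    {u v : VG r N m k} (p : (GG r N m k hr).Walk u v) (hv : v = vY R₀ s₀ i₀) :
    ∃ (x e : ℕ) (sh : ℤ), p.length = x + e ∧ |sh| ≤ x ∧ Even (sh + x) ∧
      idx u = i₀ + (sh : ZMod k) ∧ St R₀ x e u := by
  induction p with
  | nil =>
    subst hv
    refine ⟨0, 0, 0, by simp, by simp, by simp, by simp [idx, vY], ?_⟩
    simp [St, vY]
  | @cons u w v h p ih =>
    obtain ⟨x, e, sh, hl, hsh, hev, hidx, hst⟩ := ih hv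
    have h' : rel r N m k u w := h
    rw [SimpleGraph.Walk.length_cons, hl]
    rcases w with ⟨b, j⟩ | ⟨R, s, j⟩ | ⟨R, s, j⟩ <;> rcases u with ⟨b', i⟩ | ⟨R', s', i⟩ | ⟨R', s', i⟩ <;>
      simp only [rel] at h' <;> simp only [St, idx] at hst hidx ⊢
    · -- from `X` to `X`
      obtain ⟨h1, h2⟩ := h'
      have h3 : ∃ sh' : ℤ, |sh'| ≤ ((x + 1 : ℕ) : ℤ) ∧ Even (sh' + ((x + 1 : ℕ) : ℤ)) ∧
          i = i₀ + (sh' : ZMod k) := by
        rw [abs_le] at hsh
        rcases h2 with h2 | h2
        · refine ⟨sh - 1, ?_, ?_, ?_⟩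
          · rw [abs_le]
            push_cast
            constructor <;> omega
          · rw [Int.even_iff] at hev ⊢
            push_cast
            omega
          · push_cast
            rw [h2] at hidx
            linear_combination hidx
        · refine ⟨sh + 1, ?_, ?_, ?_⟩
          · rw [abs_le]
            push_cast
            constructor <;> omega
          · rw [Int.even_iff] at hev ⊢
            push_cast
            omega
          · push_cast
            rw [h2]
            linear_combination hidx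
      obtain ⟨sh', h4, h5, h6⟩ := h3
      refine ⟨x + 1, e, sh', by omega, h4, h5, h6, hst.1, ?_⟩
      intro he
      obtain ⟨c, hc, ht⟩ := hst.2 he
      exact ⟨c, hc, track_step ht h1.symm⟩
    · -- from `Y` to `X`
      obtain ⟨h1, h2⟩ := h'
      refine ⟨x, e + 1, sh, by omega, hsh, hev, by rw [← h1]; exact hidx, by omega, by omega, ?_⟩
      intro he
      obtain ⟨c, hc, ht⟩ := hst.2 (by omega)
      exact Or.inr ⟨c, b, hc, h2, ht⟩
    · -- from `X` to `Y`
      obtain ⟨h1, h2⟩ := h'
      refine ⟨x, e + 1, sh, by omega, hsh, hev, by rw [h1]; exact hidx, by omega, ?_⟩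
      intro he
      obtain ⟨h3, h4⟩ := hst.2.1 (by omega)
      subst h3 h4
      exact ⟨b', h2, track_zero b'⟩
    · -- from `Z` to `Y`
      refine ⟨x, e + 1, sh, by omega, hsh, hev, by rw [← h']; exact hidx, by omega, ?_⟩
      intro he
      exact (hst.2.1 (by omega)).1
    · -- from `Y` to `Z`
      refine ⟨x, e + 1, sh, by omega, hsh, hev, by rw [h']; exact hidx, by omega, by omega, ?_⟩
      intro he
      exact Or.inl (hst.2 (by omega))

/-- Walks without vertices of the second kind. -/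
theorem walk_state' (hr : 1 < r) (a : Vert r N) (i₀ : ZMod k)
    {u v : VG r N m k} (p : (GG r N m k hr).Walk u v) (hv : v = vX a i₀)
    (hp : ∀ R s i, vY R s i ∉ p.support) :
    ∃ b j, u = vX b j ∧ Track a b p.length := by
  induction p with
  | nil =>
    subst hv
    exact ⟨a, i₀, rfl, track_zero a⟩
  | @cons u w v h p ih =>
    obtain ⟨b, j, hw, ht⟩ := ih hv (by
      intro R s i hmem
      exact hp R s i (by rw [SimpleGraph.Walk.support_cons]; exact List.mem_cons_of_mem _ hmem))
    subst hw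
    have h' : rel r N m k u (vX b j) := h
    rcases u with ⟨b', i⟩ | ⟨R', s', i⟩ | ⟨R', s', i⟩
    · refine ⟨b', i, rfl, ?_⟩
      simp only [rel, vX] at h'
      exact track_step ht h'.1.symm
    · exfalso
      apply hp R' s' i
      rw [SimpleGraph.Walk.support_cons]
      exact List.mem_cons_self
    · simp only [rel, vX] at h'

open Classical in
theorem no_odd (t : ℕ) (hr : 1 < 2 * t + 4) (u : VG (2 * t + 4) N m (2 * t + 1))
    (p : (GG (2 * t + 4) N m (2 * t + 1) hr).Walk u u) (hodd : Odd p.length)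
    (hle : p.length ≤ 2 * t + 3) : False := by
  by_cases hY : ∃ R s i, vY R s i ∈ p.support
  · obtain ⟨R, s, i, hmem⟩ := hY
    obtain ⟨x, e, sh, hl, hsh, hev, hidx, hst⟩ := walk_state hr R s i (p.rotate _ hmem) rfl
    rw [SimpleGraph.Walk.length_rotate] at hl
    simp only [St, vY, idx] at hst hidx
    have h1 : (sh : ZMod (2 * t + 1)) = 0 := by linear_combination -hidx
    rw [ZMod.intCast_zmod_eq_zero_iff_dvd] at h1
    obtain ⟨h2, h3, h4⟩ := hst
    rw [Nat.odd_iff] at hodd
    rw [Int.even_iff] at hev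
    have h5 : sh ≠ 0 := by
      rintro rfl
      omega
    have h6 : ((2 * t + 1 : ℕ) : ℤ) ≤ |sh| := by
      apply Int.le_of_dvd (abs_pos.mpr h5)
      rwa [dvd_abs]
    have h7 : 2 * t + 1 ≤ x := by
      have := h6.trans hsh
      exact_mod_cast this
    rcases Nat.lt_or_ge e 2 with he | he
    · have he0 : e = 0 := by omega
      have := (h3 he0).1
      omega
    · have he2 : e = 2 := by omega
      rcases h4 he2 with h8 | ⟨c, b, hc, hb, ht⟩
      · omega
      · exact not_alt_alt ht (by omega) (by rw [Nat.odd_iff]; omega) R hc hb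
  · push Not at hY
    rcases u with ⟨a, i⟩ | ⟨R', s', i⟩ | ⟨R', s', i⟩
    · obtain ⟨b, j, hb, ht⟩ := walk_state' hr a i p rfl hY
      have hab : a = b := by
        simp only [vX, Sum.inl.injEq, Prod.mk.injEq] at hb
        exact hb.1
      subst hab
      exact not_track_self ht (by omega) hodd
    · exact hY R' s' i p.start_mem_support
    · cases p with
      | nil =>
        rw [SimpleGraph.Walk.length_nil] at hodd
        exact absurd hodd (by decide)
      | @cons _ w _ h q =>
        have h' : rel _ N m _ (Sum.inr (Sum.inr (R', s', i))) w := h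
        rcases w with ⟨b, j⟩ | ⟨R, s, j⟩ | ⟨R, s, j⟩ <;> simp only [rel] at h'
        apply hY R s j
        rw [SimpleGraph.Walk.support_cons]
        exact List.mem_cons_of_mem _ q.start_mem_support

theorem up_lo_hi {r N : ℕ} (x : Vert (r + 1) N) : Up (lo x) (hi x) := by
  intro i hi'
  rw [ev_of_lt _ (by omega), ev_of_lt _ hi']
  rfl

theorem no_hom (t M : ℕ) (hr : 1 < 2 * t + 4) : ∃ N : ℕ, ∀ (m : ℕ) (W : Type) [Fintype W]
    (Γ : SimpleGraph W), Fintype.card W ≤ M → OddCycleFree Γ (2 * t + 1) →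
    IsEmpty (GG (2 * t + 4) N m (2 * t + 1) hr →g Γ) := by
  obtain ⟨N, hN⟩ := exists_mono (2 * t + 3) (ZMod (2 * t + 1) → Fin M)
  refine ⟨N, ?_⟩
  intro m W _ Γ hW hΓ
  refine ⟨fun φ => ?_⟩
  obtain ⟨em⟩ : Nonempty (W ↪ Fin M) :=
    Function.Embedding.nonempty_of_card_le (by simpa using hW)
  obtain ⟨x, hx⟩ := hN (fun a i => em (φ (vX (r := 2 * t + 4) a i)))
  have h1 : ∀ i : ZMod (2 * t + 1), φ (vX (r := 2 * t + 4) (lo x) i) =
      φ (vX (r := 2 * t + 4) (hi x) i) := by
    intro i
    exact em.injective (congrFun hx i)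
  have h2 : ∀ i : ZMod (2 * t + 1), Γ.Adj (φ (vX (r := 2 * t + 4) (lo x) i))
      (φ (vX (r := 2 * t + 4) (lo x) (i + 1))) := by
    intro i
    rw [h1 (i + 1)]
    apply φ.map_adj
    exact ⟨Or.inl (up_lo_hi x), Or.inl rfl⟩
  have h3 : ∀ n : ℕ, ∃ p : Γ.Walk (φ (vX (r := 2 * t + 4) (lo x) 0))
      (φ (vX (r := 2 * t + 4) (lo x) ((n : ℕ) : ZMod (2 * t + 1)))), p.length = n := by
    intro n
    induction n with
    | zero => exact ⟨SimpleGraph.Walk.nil.copy rfl (by simp), by simp⟩
    | succ n ih =>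
      obtain ⟨p, hp⟩ := ih
      have h4 := h2 ((n : ℕ) : ZMod (2 * t + 1))
      refine ⟨(p.concat h4).copy rfl (by push_cast; rfl), ?_⟩
      rw [SimpleGraph.Walk.length_copy, SimpleGraph.Walk.length_concat, hp]
  obtain ⟨p, hp⟩ := h3 (2 * t + 1)
  obtain ⟨w, q, hq1, hq2, hq3⟩ := exists_odd_cycle (2 * t + 1) _
    (p.copy rfl (by rw [ZMod.natCast_self])) (by rw [SimpleGraph.Walk.length_copy, hp]) ⟨t, rfl⟩
  have := hΓ w q hq1 hq2
  omega

open Classical in
theorem min_degree (t N m : ℕ) (hr : 1 < 2 * t + 4) (v : VG (2 * t + 4) N m (2 * t + 1)) :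
    2 ^ N * m ≤ 2 ^ (2 * t + 4) * ((GG (2 * t + 4) N m (2 * t + 1) hr).neighborSet v).ncard := by
  have hfin : ((GG (2 * t + 4) N m (2 * t + 1) hr).neighborSet v).Finite := Set.toFinite _
  have hcard : Fintype.card ((Fin N → Bool) × Fin m) = 2 ^ N * m := by simp
  have hpow : 1 ≤ 2 ^ (2 * t + 4) := Nat.one_le_two_pow
  rcases v with ⟨a, i⟩ | ⟨R, s, i⟩ | ⟨R, s, i⟩
  · have h1 : Fintype.card ({R : Fin N → Bool // Alt R a} × Fin m) ≤
        ((GG (2 * t + 4) N m (2 * t + 1) hr).neighborSet (Sum.inl (a, i))).ncard := by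
      rw [← Nat.card_coe_set_eq, ← Nat.card_eq_fintype_card]
      have : Finite ((GG (2 * t + 4) N m (2 * t + 1) hr).neighborSet (Sum.inl (a, i))) := hfin
      refine Nat.card_le_card_of_injective (fun y => ⟨vY y.1.1 y.2 i, ?_⟩) ?_
      · exact ⟨rfl, y.1.2⟩
      · rintro ⟨⟨R, hR⟩, s⟩ ⟨⟨S, hS⟩, s'⟩ h
        simp only [vY, Subtype.mk.injEq, Sum.inr.injEq, Sum.inl.injEq, Prod.mk.injEq] at h
        obtain ⟨h1, h2, -⟩ := h
        subst h1 h2
        rfl
    rw [Fintype.card_prod, Fintype.card_fin] at h1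
    have h2 := card_alt a
    calc 2 ^ N * m ≤ 2 ^ (2 * t + 4) * Fintype.card {R : Fin N → Bool // Alt R a} * m :=
          Nat.mul_le_mul_right _ h2
      _ = 2 ^ (2 * t + 4) * (Fintype.card {R : Fin N → Bool // Alt R a} * m) := by ring
      _ ≤ _ := Nat.mul_le_mul_left _ h1
  · have h1 : Fintype.card ((Fin N → Bool) × Fin m) ≤
        ((GG (2 * t + 4) N m (2 * t + 1) hr).neighborSet (Sum.inr (Sum.inl (R, s, i)))).ncard := by
      rw [← Nat.card_coe_set_eq, ← Nat.card_eq_fintype_card]
      have : Finite ((GG (2 * t + 4) N m (2 * t + 1) hr).neighborSet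
        (Sum.inr (Sum.inl (R, s, i)))) := hfin
      refine Nat.card_le_card_of_injective (fun y => ⟨vZ y.1 y.2 i, ?_⟩) ?_
      · show i = i
        rfl
      · rintro ⟨R, s⟩ ⟨S, s'⟩ h
        simp only [vZ, Subtype.mk.injEq, Sum.inr.injEq, Prod.mk.injEq] at h
        obtain ⟨h1, h2, -⟩ := h
        subst h1 h2
        rfl
    rw [hcard] at h1
    nlinarith
  · have h1 : Fintype.card ((Fin N → Bool) × Fin m) ≤
        ((GG (2 * t + 4) N m (2 * t + 1) hr).neighborSet (Sum.inr (Sum.inr (R, s, i)))).ncard := by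
      rw [← Nat.card_coe_set_eq, ← Nat.card_eq_fintype_card]
      have : Finite ((GG (2 * t + 4) N m (2 * t + 1) hr).neighborSet
        (Sum.inr (Sum.inr (R, s, i)))) := hfin
      refine Nat.card_le_card_of_injective (fun y => ⟨vY y.1 y.2 i, ?_⟩) ?_
      · show i = i
        rfl
      · rintro ⟨R, s⟩ ⟨S, s'⟩ h
        simp only [vY, Subtype.mk.injEq, Sum.inr.injEq, Sum.inl.injEq, Prod.mk.injEq] at h
        obtain ⟨h1, h2, -⟩ := h
        subst h1 h2
        rfl
    rw [hcard] at h1
    nlinarith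

open Classical in
theorem card_VG (t N m : ℕ) (hm : Fintype.card (Vert (2 * t + 4) N) ≤ m) :
    Fintype.card (VG (2 * t + 4) N m (2 * t + 1)) ≤ 3 * (2 * t + 1) * (2 ^ N * m) := by
  have h1 : Fintype.card (VG (2 * t + 4) N m (2 * t + 1)) =
      Fintype.card (Vert (2 * t + 4) N) * (2 * t + 1) +
        (2 ^ N * (m * (2 * t + 1)) + 2 ^ N * (m * (2 * t + 1))) := by
    simp [VG, Fintype.card_sum, Fintype.card_prod, ZMod.card]
  rw [h1]
  have h2 : 1 ≤ 2 ^ N := Nat.one_le_two_pow
  have h3 : Fintype.card (Vert (2 * t + 4) N) ≤ 2 ^ N * m := by nlinarith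
  have h4 : Fintype.card (Vert (2 * t + 4) N) * (2 * t + 1) ≤ (2 ^ N * m) * (2 * t + 1) :=
    Nat.mul_le_mul_right _ h3
  calc _ ≤ (2 ^ N * m) * (2 * t + 1) + (2 ^ N * (m * (2 * t + 1)) + 2 ^ N * (m * (2 * t + 1))) :=
        Nat.add_le_add_right h4 _
    _ = _ := by ring

theorem aux_div (D c X : ℝ) (hD : 0 < D) (h : c ≤ D * X) : 1 / D * c ≤ X := by
  rw [div_mul_eq_mul_div, one_mul, div_le_iff₀ hD]
  linarith

/-- There are graphs without odd cycles of length at most `2t+3`, with minimum degree at least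
`n / (3 (2t+1) 2^(2t+4))`, and without homomorphism to a graph with at most `M` vertices and
without odd cycles of length at most `2t+1`. -/
theorem exists_graph (t M : ℕ) : ∃ (V : Type) (_ : Fintype V) (_ : Nonempty V)
    (G : SimpleGraph V), OddCycleFree G (2 * t + 3) ∧
    (∀ v, (1 / (3 * (2 * t + 1) * 2 ^ (2 * t + 4)) : ℝ) * Fintype.card V ≤
      ((G.neighborSet v).ncard : ℝ)) ∧
    ∀ (W : Type) (_ : Fintype W) (Γ : SimpleGraph W), Fintype.card W ≤ M →
      OddCycleFree Γ (2 * t + 1) → IsEmpty (G →g Γ) := by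
  classical
  have hr : 1 < 2 * t + 4 := by omega
  obtain ⟨N, hN⟩ := no_hom t M hr
  refine ⟨VG (2 * t + 4) N (Fintype.card (Vert (2 * t + 4) N) + 1) (2 * t + 1), inferInstance,
    ⟨vY (fun _ => false) 0 0⟩,
    GG (2 * t + 4) N (Fintype.card (Vert (2 * t + 4) N) + 1) (2 * t + 1) hr, ?_, ?_, ?_⟩
  · intro v p _ hodd
    by_contra hlt
    exact no_odd t hr v p hodd (by omega)
  · intro v
    have h1 := min_degree t N (Fintype.card (Vert (2 * t + 4) N) + 1) hr v
    have h2 := card_VG t N (Fintype.card (Vert (2 * t + 4) N) + 1) (by omega)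
    have h3 : Fintype.card (VG (2 * t + 4) N (Fintype.card (Vert (2 * t + 4) N) + 1) (2 * t + 1)) ≤
        3 * (2 * t + 1) * 2 ^ (2 * t + 4) * ((GG (2 * t + 4) N
          (Fintype.card (Vert (2 * t + 4) N) + 1) (2 * t + 1) hr).neighborSet v).ncard := by
      calc _ ≤ _ := h2
        _ ≤ 3 * (2 * t + 1) * (2 ^ (2 * t + 4) * ((GG (2 * t + 4) N
          (Fintype.card (Vert (2 * t + 4) N) + 1) (2 * t + 1) hr).neighborSet v).ncard) :=
            Nat.mul_le_mul_left _ h1
        _ = _ := by ring
    have h4 : ((Fintype.card (VG (2 * t + 4) N (Fintype.card (Vert (2 * t + 4) N) + 1)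
        (2 * t + 1)) : ℕ) : ℝ) ≤ (3 * (2 * t + 1) * 2 ^ (2 * t + 4)) * (((GG (2 * t + 4) N
          (Fintype.card (Vert (2 * t + 4) N) + 1) (2 * t + 1) hr).neighborSet v).ncard : ℝ) := by
      exact_mod_cast h3
    exact aux_div _ _ _ (by positivity) h4
  · intro W _ Γ hW hΓ
    exact hN _ W Γ hW hΓ

/-! ## The threshold -/

/-- `δ` admits a bound `M`: every graph `G` without odd cycles of length at most `L₁` and with
minimum degree at least `δ |G|` has a homomorphism to a graph with at most `M` vertices and without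
odd cycles of length at most `L₂`. -/
def Admits (L₁ L₂ : ℕ) (δ : ℝ) : Prop :=
  ∃ M : ℕ, ∀ (V : Type) (_ : Fintype V) (G : SimpleGraph V), OddCycleFree G L₁ →
    (∀ v, δ * Fintype.card V ≤ ((G.neighborSet v).ncard : ℝ)) →
    ∃ (W : Type) (_ : Fintype W) (Γ : SimpleGraph W), Fintype.card W ≤ M ∧
      OddCycleFree Γ L₂ ∧ Nonempty (G →g Γ)

/-- The asymmetric homomorphism threshold `δ_hom({C₃, …, C_{L₁}}; {C₃, …, C_{L₂}})`. -/
noncomputable def homThreshold (L₁ L₂ : ℕ) : ℝ :=
  sInf {δ : ℝ | 0 ≤ δ ∧ δ ≤ 1 ∧ Admits L₁ L₂ δ}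

theorem admits_one (L₁ L₂ : ℕ) : Admits L₁ L₂ 1 := by
  classical
  refine ⟨0, ?_⟩
  intro V _ G _ hdeg
  have hV : IsEmpty V := by
    refine ⟨fun v => ?_⟩
    have h1 := hdeg v
    rw [one_mul] at h1
    have h2 : Fintype.card V ≤ (G.neighborSet v).ncard := by exact_mod_cast h1
    have h3 : (G.neighborSet v).ncard < (Set.univ : Set V).ncard := by
      apply Set.ncard_lt_ncard _ (Set.toFinite _)
      rw [Set.ssubset_univ_iff]
      intro h
      have : v ∈ G.neighborSet v := by rw [h]; trivial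
      exact G.loopless.irrefl v this
    rw [Set.ncard_univ, Nat.card_eq_fintype_card] at h3
    omega
  refine ⟨Empty, inferInstance, ⊥, by simp, ?_, ⟨⟨fun v => (hV.false v).elim, ?_⟩⟩⟩
  · intro v
    exact v.elim
  · intro a
    exact (hV.false a).elim

/-- **Main result.** For every `t ≥ 1`, the threshold `δ_hom(𝒞_{2t+3}; 𝒞_{2t+1})` is positive (at
least `1 / (3 (2t+1) 2^(2t+4))`); explicitly, there are `𝒞_{2t+3}`-free graphs `G` with minimum
degree at least `|G| / (3 (2t+1) 2^(2t+4))` for which the smallest `𝒞_{2t+1}`-free graph admitting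
a homomorphism from `G` has unbounded order. -/
theorem result (t : ℕ) (_ht : 1 ≤ t) :
    (∀ M : ℕ, ∃ (V : Type) (_ : Fintype V) (_ : Nonempty V) (G : SimpleGraph V),
      OddCycleFree G (2 * t + 3) ∧
      (∀ v, (1 / (3 * (2 * t + 1) * 2 ^ (2 * t + 4)) : ℝ) * Fintype.card V ≤
        ((G.neighborSet v).ncard : ℝ)) ∧
      ∀ (W : Type) (_ : Fintype W) (Γ : SimpleGraph W), Fintype.card W ≤ M →
        OddCycleFree Γ (2 * t + 1) → IsEmpty (G →g Γ)) ∧
    (1 / (3 * (2 * t + 1) * 2 ^ (2 * t + 4)) : ℝ) ≤ homThreshold (2 * t + 3) (2 * t + 1) ∧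
    0 < homThreshold (2 * t + 3) (2 * t + 1) := by
  have h1 : (1 / (3 * (2 * t + 1) * 2 ^ (2 * t + 4)) : ℝ) ≤
      homThreshold (2 * t + 3) (2 * t + 1) := by
    apply le_csInf
    · exact ⟨1, by norm_num, le_refl _, admits_one _ _⟩
    · rintro δ ⟨hδ0, hδ1, M, hM⟩
      by_contra hlt
      rw [not_le] at hlt
      obtain ⟨V, _, _, G, hG, hdeg, hno⟩ := exists_graph t M
      obtain ⟨W, _, Γ, hW, hΓ, ⟨φ⟩⟩ := hM V inferInstance G hG (by
        intro v
        refine le_trans ?_ (hdeg v)
        exact mul_le_mul_of_nonneg_right hlt.le (Nat.cast_nonneg _))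
      exact (hno W inferInstance Γ hW hΓ).false φ
  exact ⟨fun M => exists_graph t M, h1, lt_of_lt_of_le (by positivity) h1⟩

end Pool.Agent.Results.MP_0fa314_co.NoThreshold
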